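import Pool.Agent.Y960.SA.Mon

/-!
# Job 3578 (SL/VALCS): counting exponents, coefficient vectors
-/

set_option autoImplicit false

open PowerSeries

namespace Pool.Agent.Y333.SL

open Pool.Agent.Y113 Pool.Agent.Y916.Hy Pool.Agent.Y916.Sa Pool.Agent.Y960.SA

/-! ### counting exponents -/

lemma exists_D_abs (f : ℕ → ℕ) (n Δ c : ℕ) (h1f : ∀ D, 1 ≤ f D) (hf : ∀ D, f D ≤ (D + 1) ^ n) :
    ∃ D : ℕ, c * (f (D + Δ) - f D) ≤ f (D + Δ) := by
  by_contra hcon
  push Not at hcon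
  have hlt : ∀ D, f D < f (D + Δ) := by
    intro D
    by_contra h
    push Not at h
    have h1 := hcon D
    rw [Nat.sub_eq_zero_of_le h] at h1
    omega
  have hR : ∀ D, ((f (D + Δ) : ℕ) : ℝ) < c * ((f (D + Δ) : ℝ) - f D) := by
    intro D
    have h1 := hcon D
    have h2 : (((f (D + Δ) : ℕ) : ℝ)) < ((c * (f (D + Δ) - f D) : ℕ) : ℝ) := by exact_mod_cast h1
    rw [Nat.cast_mul, Nat.cast_sub (hlt D).le] at h2
    exact h2
  have hpos : ∀ D, (1 : ℝ) ≤ f D := fun D => by exact_mod_cast h1f D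
  have hc : (1 : ℝ) < c := by
    by_contra h
    push Not at h
    have h1 := hR 0
    have h2 := hpos 0
    have h3 := hpos (0 + Δ)
    have h4 : ((f 0 : ℕ) : ℝ) < f (0 + Δ) := by exact_mod_cast hlt 0
    nlinarith
  set r : ℝ := c / (c - 1) with hr
  have hc1 : (0 : ℝ) < c - 1 := by linarith
  have hr1 : 1 < r := by
    rw [hr, lt_div_iff₀ hc1]
    linarith
  have hstep : ∀ D, r * f D ≤ f (D + Δ) := by
    intro D
    rw [hr, div_mul_eq_mul_div, div_le_iff₀ hc1]
    have := hR D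
    nlinarith
  have hgrow : ∀ j : ℕ, r ^ j ≤ f (j * Δ) := by
    intro j
    induction j with
    | zero => simpa using hpos 0
    | succ j ih =>
      calc r ^ (j + 1) = r * r ^ j := by ring
        _ ≤ r * f (j * Δ) := mul_le_mul_of_nonneg_left ih (by linarith)
        _ ≤ f (j * Δ + Δ) := hstep _
        _ = f ((j + 1) * Δ) := by rw [add_mul, one_mul]
  have hup : ∀ j : ℕ, (f (j * Δ) : ℝ) ≤ ((Δ : ℝ) + 1) ^ n * ((j : ℝ) + 1) ^ n := by
    intro j
    have h1 : (f (j * Δ) : ℝ) ≤ ((j * Δ : ℕ) + 1 : ℝ) ^ n := by exact_mod_cast hf (j * Δ)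
    refine h1.trans ?_
    rw [← mul_pow]
    refine pow_le_pow_left₀ (by positivity) ?_ _
    push_cast
    have h2 : (0 : ℝ) ≤ j := by positivity
    have h3 : (0 : ℝ) ≤ Δ := by positivity
    nlinarith
  have hlim := tendsto_pow_const_div_const_pow_of_one_lt n hr1
  have hδ : (0 : ℝ) < 1 / (((Δ : ℝ) + 1) ^ n * r) := by positivity
  have hev := (hlim.eventually (gt_mem_nhds hδ)).and (Filter.eventually_ge_atTop 1)
  obtain ⟨j, hj1, hj2⟩ := hev.exists
  obtain ⟨i, rfl⟩ : ∃ i, j = i + 1 := ⟨j - 1, by omega⟩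
  have h1 := (hgrow i).trans (hup i)
  have hrp : (0 : ℝ) < r ^ i := by positivity
  rw [div_lt_div_iff₀ (by positivity) (by positivity)] at hj1
  push_cast at hj1
  rw [pow_succ] at hj1
  have hr0 : 0 < r := by linarith
  have h2 : r * (((Δ : ℝ) + 1) ^ n * ((i : ℝ) + 1) ^ n) < r * r ^ i := by nlinarith
  have h3 := lt_of_mul_lt_mul_left h2 hr0.le
  linarith

variable {s : ℕ} (m : Fin s → ℕ)

lemma card_le (N D : ℕ) : Fintype.card (Fin N → Dx m D) ≤ (D + 1) ^ (Fintype.card (Tau m) * N) := by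
  have h1 : Fintype.card (Fin N → Dx m D) ≤ Fintype.card (Fin N → Tau m → Fin (D + 1)) := by
    refine Fintype.card_le_of_injective (fun e l => (e l).1) ?_
    intro e e' h
    funext l
    exact Subtype.ext (congrFun h l)
  have h2 : Fintype.card (Fin N → Tau m → Fin (D + 1)) = (D + 1) ^ (Fintype.card (Tau m) * N) := by
    rw [Fintype.card_fun, Fintype.card_fun, Fintype.card_fin, Fintype.card_fin, pow_mul]
  rw [← h2]
  exact h1

lemma one_le_card (N D : ℕ) : 1 ≤ Fintype.card (Fin N → Dx m D) := by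
  have : Nonempty (Fin N → Dx m D) := ⟨fun _ => ⟨fun _ => 0, by simp⟩⟩
  exact Fintype.card_pos

lemma exists_D (N Δ c : ℕ) : ∃ D : ℕ, c * (Fintype.card (Fin N → Dx m (D + Δ)) - Fintype.card (Fin N → Dx m D)) ≤
    Fintype.card (Fin N → Dx m (D + Δ)) :=
  exists_D_abs (fun D => Fintype.card (Fin N → Dx m D)) _ Δ c (one_le_card m N) (card_le m N)

/-! ### polynomials -/

lemma exists_d' {N : ℕ} (D : ℕ) (d : (Fin N × Tau m) →₀ ℕ) (hd : ∀ l, ∑ x, d (l, x) ≤ D) :
    ∃ b : Fin N → Dx m D, DD m D b = d := by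
  refine ⟨fun l => ⟨fun x => ⟨d (l, x), by
    have h1 := Finset.single_le_sum (f := fun x => d (l, x)) (fun _ _ => Nat.zero_le _) (Finset.mem_univ x)
    have h2 := hd l
    omega⟩, hd l⟩, ?_⟩
  ext x
  rfl

lemma DD_sum {N D : ℕ} (b : Fin N → Dx m D) (l : Fin N) : ∑ x, DD m D b (l, x) ≤ D := (b l).2

lemma supp_mul {K : Type} [Field K] {N D Δ : ℕ} (Q W : MvPolynomial (Fin N × Tau m) K) (hQ : Q.totalDegree ≤ Δ)
    (hW : ∀ d ∈ W.support, ∀ l, ∑ x, d (l, x) ≤ D) (d : (Fin N × Tau m) →₀ ℕ) (hd : d ∈ (Q * W).support) :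
    ∀ l, ∑ x, d (l, x) ≤ D + Δ := by
  classical
  intro l
  obtain ⟨d1, h1, d2, h2, rfl⟩ := Finset.mem_add.1 (MvPolynomial.support_mul Q W hd)
  have h3 : ∑ x, d1 (l, x) ≤ Δ := by
    have h4 : (d1.sum fun _ k => k) ≤ Δ := (MvPolynomial.le_totalDegree h1).trans hQ
    have h5 : ∑ i, d1 i ≤ Δ := by rwa [Finsupp.sum_fintype _ _ (fun _ => rfl)] at h4
    rw [Fintype.sum_prod_type] at h5
    exact (Finset.single_le_sum (f := fun l => ∑ x, d1 (l, x)) (fun _ _ => Nat.zero_le _)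
      (Finset.mem_univ l)).trans h5
  have h6 := hW d2 h2 l
  simp only [Finsupp.add_apply, Finset.sum_add_distrib]
  omega

lemma supp_sum {K : Type} [Field K] {N D : ℕ} (g : (Fin N → Dx m D) → K) (d : (Fin N × Tau m) →₀ ℕ)
    (hd : d ∈ (∑ e', MvPolynomial.monomial (DD m D e') (g e')).support) : ∀ l, ∑ x, d (l, x) ≤ D := by
  classical
  have h1 := MvPolynomial.support_sum hd
  rw [Finset.mem_biUnion] at h1
  obtain ⟨e', -, h2⟩ := h1
  have h3 := MvPolynomial.support_monomial_subset h2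
  rw [Finset.mem_singleton] at h3
  rw [h3]
  exact DD_sum m e'

/-- the coefficient vectors of the multiples `Q * Y ^ e'` -/
noncomputable def vec {K : Type} [Field K] {N D : ℕ} (Q : MvPolynomial (Fin N × Tau m) K) (D' : ℕ)
    (e' : Fin N → Dx m D) (e : Fin N → Dx m D') : K :=
  MvPolynomial.coeff (DD m D' e) (Q * MvPolynomial.monomial (DD m D e') 1)

lemma vec_indep {K : Type} [Field K] {N D Δ : ℕ} (Q : MvPolynomial (Fin N × Tau m) K) (hQ0 : Q ≠ 0)
    (hQ : Q.totalDegree ≤ Δ) (g : (Fin N → Dx m D) → K)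
    (hg : ∀ e : Fin N → Dx m (D + Δ), ∑ e' : Fin N → Dx m D, g e' * vec m Q (D + Δ) e' e = 0) :
    ∀ e', g e' = 0 := by
  classical
  set W : MvPolynomial (Fin N × Tau m) K := ∑ e', MvPolynomial.monomial (DD m D e') (g e') with hW
  have hPW : Q * W = ∑ e', MvPolynomial.C (g e') * (Q * MvPolynomial.monomial (DD m D e') 1) := by
    rw [hW, Finset.mul_sum]
    refine Finset.sum_congr rfl fun e' _ => ?_
    rw [mul_left_comm, MvPolynomial.C_mul_monomial, mul_one]
  have h0 : Q * W = 0 := by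
    by_contra hne
    obtain ⟨d, hd'⟩ := MvPolynomial.support_nonempty.2 hne
    obtain ⟨e, he⟩ := exists_d' m (D + Δ) d (supp_mul m Q W hQ (supp_sum m g) d hd')
    rw [MvPolynomial.mem_support_iff] at hd'
    apply hd'
    rw [← he, hPW, MvPolynomial.coeff_sum]
    simp only [MvPolynomial.coeff_C_mul]
    exact hg e
  have hW0 : W = 0 := by
    rcases mul_eq_zero.1 h0 with h | h
    · exact absurd h hQ0
    · exact h
  intro e'
  have h1 := congrArg (MvPolynomial.coeff (DD m D e')) hW0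
  rw [hW, MvPolynomial.coeff_sum, MvPolynomial.coeff_zero] at h1
  rw [Finset.sum_eq_single e'] at h1
  · simpa using h1
  · intro b _ hb
    rw [MvPolynomial.coeff_monomial, if_neg]
    intro h
    exact hb (DD_inj m D h)
  · intro h
    exact absurd (Finset.mem_univ _) h

lemma aeval_sum {N D : ℕ} {S S' : Type} [CommSemiring S] [CommSemiring S'] [Algebra S S']
    (Q : MvPolynomial (Fin N × Tau m) S) (hQ : ∀ d ∈ Q.support, ∀ l, ∑ x, d (l, x) ≤ D)
    (y : Fin N × Tau m → S') :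
    MvPolynomial.aeval y Q = ∑ e : Fin N → Dx m D, algebraMap S S' (Q.coeff (DD m D e)) *
      ∏ i, y i ^ (DD m D e i) := by
  classical
  rw [MvPolynomial.aeval_def, MvPolynomial.eval₂_eq']
  have h1 : ∑ d ∈ Q.support, (algebraMap S S') (Q.coeff d) * ∏ i, y i ^ d i =
      ∑ d ∈ Finset.univ.image (DD m D (N := N)), (algebraMap S S') (Q.coeff d) * ∏ i, y i ^ d i := by
    refine Finset.sum_subset ?_ ?_
    · intro d hd
      obtain ⟨e, he⟩ := exists_d' m D d (hQ d hd)
      exact Finset.mem_image.2 ⟨e, Finset.mem_univ _, he⟩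
    · intro d _ hd
      rw [MvPolynomial.notMem_support_iff.1 hd]
      simp
  rw [h1, Finset.sum_image (fun a _ b _ h => DD_inj m D h)]

end Pool.Agent.Y333.SL
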