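import Pool.Agent.Y960.SA.Mon
import Pool.Agent.Y916.Al.Ev

/-!
# Job 3578 (SL/VALCS): the G-system of the reduced monomials and its denominator at a small complex number
-/

set_option autoImplicit false

open PowerSeries

namespace Pool.Agent.Y333.SL

open Pool.Agent.Y113 Pool.Agent.Y916.Hy Pool.Agent.Y916.Sa Pool.Agent.Y120.GF Pool.Agent.Y960.SA Pool.Agent.Y916.Al

lemma phi_neC {F : Polynomial ℤ} (hF : 0 < F.leadingCoeff) {E₂ n : ℕ} (hn : F.natDegree ≤ n) {H g : ℕ} {x : ℂ}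
    (hE₂ : ∀ l : ℕ, |(((phi F g).coeff l : ℤ) : ℝ)| ≤ ((H : ℝ) + 2) ^ E₂)
    (hx : ‖x‖ * ((H : ℝ) + 2) ^ (E₂ + n) ≤ 1) :
    Polynomial.aeval x (phi F g) ≠ 0 := by
  set T := phi F g with hT
  set d := T.natDegree with hd
  have hdn : d ≤ n := (Pool.Agent.Y678.HV.phi_natDegree F g).trans hn
  have hB : (1 : ℝ) ≤ (H : ℝ) + 2 := one_le_base H
  set A : ℝ := ((H : ℝ) + 2) ^ E₂ with hA
  have hA1 : 1 ≤ A := one_le_pow₀ hB
  have hx1 : ‖x‖ ≤ 1 := by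
    have h2 : (1 : ℝ) ≤ ((H : ℝ) + 2) ^ (E₂ + n) := one_le_pow₀ hB
    calc ‖x‖ = ‖x‖ * 1 := (mul_one _).symm
      _ ≤ ‖x‖ * ((H : ℝ) + 2) ^ (E₂ + n) := mul_le_mul_of_nonneg_left h2 (norm_nonneg _)
      _ ≤ 1 := hx
  rw [Polynomial.aeval_eq_sum_range, Finset.sum_range_succ']
  have h2 : ‖∑ k ∈ Finset.range d, T.coeff (k + 1) • x ^ (k + 1)‖ ≤ d * (A * ‖x‖) := by
    refine (norm_sum_le _ _).trans ?_
    have h3 : ∀ k ∈ Finset.range d, ‖T.coeff (k + 1) • x ^ (k + 1)‖ ≤ A * ‖x‖ := by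
      intro k _
      rw [zsmul_eq_mul, norm_mul, Complex.norm_intCast, norm_pow, pow_succ]
      have h5 : ‖x‖ ^ k * ‖x‖ ≤ ‖x‖ := by
        have : ‖x‖ ^ k ≤ 1 := pow_le_one₀ (norm_nonneg _) hx1
        calc ‖x‖ ^ k * ‖x‖ ≤ 1 * ‖x‖ := mul_le_mul_of_nonneg_right this (norm_nonneg _)
          _ = _ := one_mul _
      exact mul_le_mul (hE₂ (k + 1)) h5 (by positivity) (by positivity)
    refine (Finset.sum_le_sum h3).trans ?_
    simp
  have h6 : (d : ℝ) * (A * ‖x‖) < 1 := by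
    have h7 : (d : ℝ) ≤ n := by exact_mod_cast hdn
    have h8 : (n : ℝ) * (A * ‖x‖) < 1 := by
      rcases (norm_nonneg x).eq_or_lt with h | h
      · rw [← h]; simp
      · have h9 : (n : ℝ) < ((H : ℝ) + 2) ^ n := by
          have h10 : n < (H + 2) ^ n := (Nat.lt_two_pow_self).trans_le (Nat.pow_le_pow_left (by omega) _)
          exact_mod_cast h10
        calc (n : ℝ) * (A * ‖x‖) < ((H : ℝ) + 2) ^ n * (A * ‖x‖) := mul_lt_mul_of_pos_right h9 (by positivity)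
          _ = ‖x‖ * ((H : ℝ) + 2) ^ (E₂ + n) := by rw [hA, pow_add]; ring
          _ ≤ 1 := hx
    have h9 : (0 : ℝ) ≤ A * ‖x‖ := by positivity
    nlinarith
  have h0 : 1 ≤ T.coeff 0 := by rw [hT, Pool.Agent.Y678.HV.phi_coeff_zero]; exact hF
  have h0' : (1 : ℝ) ≤ (T.coeff 0 : ℤ) := by exact_mod_cast h0
  intro h8
  simp only [pow_zero, zsmul_eq_mul, mul_one] at h8 h2
  have h9 : ∑ k ∈ Finset.range d, ((T.coeff (k + 1) : ℤ) : ℂ) * x ^ (k + 1) = -((T.coeff 0 : ℤ) : ℂ) := by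
    linear_combination h8
  rw [h9, norm_neg, Complex.norm_intCast, abs_of_pos (by linarith)] at h2
  linarith

theorem gs_of (hrt : S_rt) (halg : S_alg) (heint : S_eint) (hkap : S_kap) (s : ℕ) (P : Fin s → Polynomial ℤ)
    (m : Fin s → ℕ) (hP : ∀ a, GoodO (P a) ∧ m a < (P a).natDegree) (N Δ : ℕ) :
    ∃ q E : ℕ, ∀ (H : ℕ) (g : Fin N → ℕ), (∀ l, g l ≤ H) → ∀ J : Finset (Fin s × Fin N),
      (∀ i : Fin s × Fin N, ∃ T : Finset (Fin s × Fin N), T ⊆ J ∧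
        Sqr (phi (P i.1) (g i.2) * ∏ j ∈ T, phi (P j.1) (g j.2))) →
      ∃ T : Polynomial ℤ, GSys q (((H : ℝ) + 2) ^ E) T (wf P m Δ g J) ∧
        ∀ x : ℂ, x ≠ 0 → ‖x‖ * ((H : ℝ) + 2) ^ E ≤ 1 → Polynomial.aeval x T ≠ 0 ∧
          (∀ i : Fin s × Fin N, Cvc x (rt P g i)) ∧ ∀ i : Fin N × Tau m, Cvc x (Yg P m (g i.1) i.2) := by
  classical
  obtain ⟨q₀, E₀, hE₀⟩ := OS_sys P m Δ halg heint hP
  obtain ⟨q, E₁, hE₁⟩ := gsys_multi (fun g => OS P m Δ g) (fun g => Tg P g) q₀ E₀ hE₀ N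
  obtain ⟨q₆, E₆, hE₆⟩ := base_sys P m halg heint hP
  -- bounds for `phi`
  choose Ea hEa using fun a => Pool.Agent.Y678.HV.phi_bd (P a)
  set E₂ := ∑ a, Ea a with hE₂
  set n := ∑ a, (P a).natDegree with hn
  have hna : ∀ a, (P a).natDegree ≤ n := fun a =>
    Finset.single_le_sum (f := fun a => (P a).natDegree) (fun _ _ => Nat.zero_le _) (Finset.mem_univ a)
  have hEaE : ∀ a, Ea a ≤ E₂ := fun a =>
    Finset.single_le_sum (f := fun a => Ea a) (fun _ _ => Nat.zero_le _) (Finset.mem_univ a)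
  set cI := Fintype.card (Fin s × Fin N) with hcI
  obtain ⟨E₅, hE₅⟩ := hkap n cI
  set a₀ := (E₂ + 2) * E₅ + E₅ + E₂ + n with ha₀
  set K := Δ + 1 with hK
  set K' := K * cI with hK'
  set cF := 2 * (2 * (2 * (3 * a₀) * K) * cI) + 2 * (2 * a₀ * K') * cI with hcF
  set cN := 2 * (2 * (2 * (2 * (3 * a₀) * K) + 2 * a₀ * K) * cI) + 2 * (2 * (2 * a₀ * K') + 2 * a₀ * K') * cI
    with hcN
  set Nk := Fintype.card (Finset (Fin s × Fin N) × (Fin N → Dx m Δ)) with hNk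
  set Ni := Fintype.card (Fin N → WI m Δ) with hNi
  obtain ⟨E₃, hE₃⟩ := Pool.Agent.Y678.HV.t_col (max Ni Nk) q (cF + cN)
  set B := E₁ + cF + cN with hB
  refine ⟨q + (cF + cN), (B + 1) * E₃ + (E₂ + n) + (E₆ + 1), fun H g hgH J hJ => ?_⟩
  have hHB : (1 : ℝ) ≤ (H : ℝ) + 2 := one_le_base H
  have hgl : ∀ l, ((g l : ℕ) : ℝ) + 2 ≤ (H : ℝ) + 2 := fun l => by
    have : ((g l : ℕ) : ℝ) ≤ H := by exact_mod_cast hgH l
    linarith
  -- the set of the roots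
  choose T hTJ hTs using hJ
  -- bounds
  have hφc : ∀ (i : Fin s × Fin N) (l : ℕ), |(((phi (P i.1) (g i.2)).coeff l : ℤ) : ℝ)| ≤ ((H : ℝ) + 2) ^ E₂ := by
    intro i l
    refine (hEa i.1 (g i.2) l).trans ?_
    exact (pow_le_pow_left₀ (by positivity) (hgl i.2) _).trans (base_mono hHB (hEaE i.1))
  have hφB : ∀ i : Fin s × Fin N, Bx H a₀ (phi (P i.1) (g i.2)) := by
    intro i
    refine ⟨((Pool.Agent.Y678.HV.phi_natDegree _ _).trans (hna i.1)).trans (by omega), fun l => ?_⟩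
    exact (hφc i l).trans (base_mono hHB (by omega))
  have hφ0 : ∀ i : Fin s × Fin N, 0 < (phi (P i.1) (g i.2)).coeff 0 := by
    intro i
    rw [Pool.Agent.Y678.HV.phi_coeff_zero]
    exact (hP i.1).1.pos
  have hkap' : ∀ i : Fin s × Fin N, ∃ (M : ℤ) (W : Polynomial ℤ), 0 < M ∧ M ≤ (((H + 2) ^ E₂ : ℕ) + 2 : ℤ) ^ E₅ ∧
      W.natDegree ≤ E₅ ∧ (∀ l, |W.coeff l| ≤ (((H + 2) ^ E₂ : ℕ) + 2 : ℤ) ^ E₅) ∧
      ps (Polynomial.C M * phi (P i.1) (g i.2)) * Rt (phi (P i.1) (g i.2)) =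
        ps W * ∏ j ∈ T i, Rt (phi (P j.1) (g j.2)) := by
    intro i
    refine hE₅ ((H + 2) ^ E₂) (Fin s × Fin N) (T i) i (fun j => phi (P j.1) (g j.2)) le_rfl (fun j => ?_) (hTs i)
    refine ⟨hφ0 j, (Pool.Agent.Y678.HV.phi_natDegree _ _).trans (hna j.1), fun l => ?_⟩
    have h1 := hφc j l
    have h2 : ((|(phi (P j.1) (g j.2)).coeff l| : ℤ) : ℝ) ≤ (((H + 2) ^ E₂ : ℕ) : ℝ) := by
      push_cast
      exact h1
    exact_mod_cast h2
  choose M W hM0 hM1 hW1 hW2 hMW using hkap'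
  have hbig : ((((((H + 2) ^ E₂ : ℕ) + 2 : ℤ) ^ E₅ : ℤ)) : ℝ) ≤ ((H : ℝ) + 2) ^ ((E₂ + 2) * E₅) := by
    push_cast
    have hx : (2 : ℝ) ≤ (H : ℝ) + 2 := by
      have : (0 : ℝ) ≤ H := Nat.cast_nonneg _
      linarith
    have h3 : ((H : ℝ) + 2) ^ E₂ + 2 ≤ ((H : ℝ) + 2) ^ (E₂ + 2) := by
      have h4 : (1 : ℝ) ≤ ((H : ℝ) + 2) ^ E₂ := one_le_pow₀ hHB
      have h5 : (4 : ℝ) ≤ ((H : ℝ) + 2) ^ 2 := by nlinarith
      rw [pow_add]
      nlinarith [mul_le_mul_of_nonneg_left h5 (show (0 : ℝ) ≤ ((H : ℝ) + 2) ^ E₂ by positivity)]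
    calc (((H : ℝ) + 2) ^ E₂ + 2) ^ E₅ ≤ (((H : ℝ) + 2) ^ (E₂ + 2)) ^ E₅ :=
          pow_le_pow_left₀ (by positivity) h3 _
      _ = _ := by rw [pow_mul]
  have hMB : ∀ i, |((M i : ℤ) : ℝ)| ≤ ((H : ℝ) + 2) ^ a₀ := by
    intro i
    have h1 : (0 : ℝ) < (M i : ℤ) := by exact_mod_cast hM0 i
    rw [abs_of_pos h1]
    have h2 : ((M i : ℤ) : ℝ) ≤ ((((((H + 2) ^ E₂ : ℕ) + 2 : ℤ) ^ E₅ : ℤ)) : ℝ) := by exact_mod_cast hM1 i
    exact (h2.trans hbig).trans (base_mono hHB (by omega))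
  have hWB : ∀ i, Bx H a₀ (W i) := by
    intro i
    refine ⟨(hW1 i).trans (by omega), fun l => ?_⟩
    have h2 : ((|(W i).coeff l| : ℤ) : ℝ) ≤ ((((((H + 2) ^ E₂ : ℕ) + 2 : ℤ) ^ E₅ : ℤ)) : ℝ) := by
      exact_mod_cast hW2 i l
    rw [Int.cast_abs] at h2
    exact (h2.trans hbig).trans (base_mono hHB (by omega))
  set c : Fin s × Fin N → ℤ := fun i => (phi (P i.1) (g i.2)).coeff 0 with hc
  have hcB : ∀ i, |((c i : ℤ) : ℝ)| ≤ ((H : ℝ) + 2) ^ a₀ := fun i => (hφB i).2 0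
  have hr : ∀ i, rt P g i ^ 2 * ps (phi (P i.1) (g i.2)) = ((c i : ℤ) : ℚ⟦X⟧) := by
    intro i
    rw [rt, (hrt _ (hφ0 i)).1, hc]
    simp
  -- the collapse
  set FF := fac K K' M (fun i : Fin s × Fin N => phi (P i.1) (g i.2)) with hFF
  choose kk pp hkk hpp using word_red P m Δ g J M c W T hr hTJ hMW
  choose wd hwd using wf_word P m Δ g J
  have hCB : ∀ a, a ≤ B → ((H : ℝ) + 2) ^ a ≤ ((H : ℝ) + 2) ^ B := fun a ha => base_mono hHB ha
  have hFB : Bx H cF FF := fac_bd K K' H a₀ cI le_rfl M _ hMB hφB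
  have hNB : ∀ b : Fin N → WI m Δ, Bx H cN (num K K' M (fun i : Fin s × Fin N => phi (P i.1) (g i.2)) W c
      (fun i => eR m Δ (b i.2) i.1) (kk b)) := fun b =>
    num_bd K K' H a₀ cI le_rfl M c _ W hMB hcB hφB hWB _ _ (fun i => eR_le m Δ _ _) (hkk b)
  have hG0 := (hE₁ H g (fun l => hgH l)).mono le_rfl (hCB E₁ (by omega))
  have hcardK : Fintype.card (KI m Δ J) ≤ Nk := by
    rw [hNk, Fintype.card_prod, Fintype.card_prod]
    refine Nat.mul_le_mul_right _ ?_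
    exact Fintype.card_subtype_le _
  have hcol := hE₃ (Fin N → WI m Δ) (KI m Δ J) (((H : ℝ) + 2) ^ B) (∏ l, Tg P (g l)) FF
    (fun b => ∏ l, OS P m Δ (g l) (b l)) (wf P m Δ g J) wd
    (fun b p => if p = pp b then num K K' M (fun i : Fin s × Fin N => phi (P i.1) (g i.2)) W c
      (fun i => eR m Δ (b i.2) i.1) (kk b) else 0)
    (le_max_left _ _) (hcardK.trans (le_max_right _ _)) hG0 hwd (hFB.1.trans (by omega))
    (fun l => (hFB.2 l).trans (hCB _ (by omega))) ?_ ?_ ?_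
  rotate_left
  · intro b p
    split_ifs
    · exact (hNB b).1.trans (by omega)
    · simp
  · intro b p l
    split_ifs
    · exact ((hNB b).2 l).trans (hCB _ (by omega))
    · simp; positivity
  · intro b
    rw [Finset.sum_eq_single (pp b)]
    · rw [if_pos rfl]
      exact hpp b
    · intro p _ hp
      rw [if_neg hp, ps_zero, zero_mul]
    · intro h
      exact absurd (Finset.mem_univ _) h
  have hG : GSys (q + (cF + cN)) (((H : ℝ) + 2) ^ ((B + 1) * E₃)) ((∏ l, Tg P (g l)) * FF) (wf P m Δ g J) :=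
    hcol.mono le_rfl (pow_base H _ _)
  refine ⟨(∏ l, Tg P (g l)) * FF, hG.mono le_rfl (base_mono hHB (by omega)), fun x hx0 hxE => ?_⟩
  have hxR : ∀ a, a ≤ (B + 1) * E₃ + (E₂ + n) + (E₆ + 1) → ‖x‖ * ((H : ℝ) + 2) ^ a ≤ 1 := fun a ha =>
    (mul_le_mul_of_nonneg_left (base_mono hHB ha) (norm_nonneg _)).trans hxE
  have hxp : 0 < ‖x‖ := norm_pos_iff.2 hx0
  -- convergence
  have hxlt : ((H : ℝ) + 2) ^ E₆ * ‖x‖ < 1 := by
    refine lt_of_lt_of_le ?_ (hxR (E₆ + 1) (by omega))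
    rw [mul_comm]
    refine mul_lt_mul_of_pos_left ?_ hxp
    exact pow_lt_pow_right₀ (by linarith [show (0 : ℝ) ≤ H by positivity]) (by omega)
  have hcvb : ∀ (l : Fin N) (b : BI m), Cvc x (bf P m (g l) b) := by
    intro l b
    refine Cvc.of_bound (A := ((H : ℝ) + 2) ^ E₆) (B := ((H : ℝ) + 2) ^ E₆) (by positivity) hxlt fun i => ?_
    have h1 : |((coeff i (bf P m (g l) b) : ℚ) : ℝ)| ≤ ((((g l : ℕ) : ℝ) + 2) ^ E₆) ^ (i + 1) :=
      (hE₆ (g l)).1.size b i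
    have h2 : ((((g l : ℕ) : ℝ) + 2) ^ E₆) ^ (i + 1) ≤ (((H : ℝ) + 2) ^ E₆) ^ (i + 1) :=
      pow_le_pow_left₀ (by positivity) (pow_le_pow_left₀ (by positivity) (hgl l) _) _
    have h3 := h1.trans h2
    rw [pow_succ'] at h3
    rw [Complex.norm_ratCast]
    exact h3
  -- non-vanishing
  have hph : ∀ i : Fin s × Fin N, Polynomial.aeval x (phi (P i.1) (g i.2)) ≠ 0 := fun i =>
    phi_neC (hP i.1).1.pos (hna i.1) (hφc i) (hxR _ (by omega))
  refine ⟨?_, fun i => ?_, fun i => ?_⟩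
  · rw [map_mul, map_prod]
    refine mul_ne_zero (Finset.prod_ne_zero_iff.2 fun l _ => ?_) ?_
    · unfold Tg
      rw [map_mul, map_mul, Polynomial.aeval_X, map_prod]
      refine mul_ne_zero (mul_ne_zero hx0 (Finset.prod_ne_zero_iff.2 fun a _ => hph (a, l))) ?_
      rw [map_add, map_mul, map_one, Polynomial.aeval_X, Polynomial.aeval_C]
      intro h
      have h1 : ((g l : ℕ) : ℂ) * x = -1 := by
        have h2 : (algebraMap ℤ ℂ) (g l : ℤ) = ((g l : ℕ) : ℂ) := by simp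
        rw [h2] at h
        linear_combination h
      have h2 : ‖((g l : ℕ) : ℂ) * x‖ = 1 := by rw [h1]; simp
      rw [norm_mul, Complex.norm_natCast] at h2
      have h3 := hxR 1 (by omega)
      rw [pow_one] at h3
      have h4 := hgl l
      nlinarith
    · rw [hFF]
      unfold fac
      rw [map_mul, map_prod, map_prod]
      refine mul_ne_zero (Finset.prod_ne_zero_iff.2 fun i _ => ?_) (Finset.prod_ne_zero_iff.2 fun i _ => ?_)
      · rw [map_pow, map_mul, Polynomial.aeval_C]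
        refine pow_ne_zero _ (mul_ne_zero ?_ (hph i))
        rw [eq_intCast]
        exact_mod_cast (hM0 i).ne'
      · rw [map_pow]
        exact pow_ne_zero _ (hph i)
  · have h1 := hcvb i.2 (Sum.inl (Sum.inl (sgl i.1)))
    have h2 : bf P m (g i.2) (Sum.inl (Sum.inl (sgl i.1))) = rt P g i := RS_sgl P (g i.2) i.1
    rw [h2] at h1
    exact h1
  · rcases i with ⟨l, aj | u⟩
    · exact hcvb l (Sum.inl (Sum.inr aj))
    · exact hcvb l (Sum.inr u)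

end Pool.Agent.Y333.SL
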