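import Pool.Agent.Y333.SL.ValcS0
import Pool.Agent.Y916.Sl.Stm
import Pool.Agent.Y201.SA.Kap
import Pool.Agent.Y419.HY.Alg
import Pool.Agent.Y419.HY.Eint

/-!
# Job 3578 (SL/VALCS): values of the semi-abelian G-system at an algebraic point
-/

set_option autoImplicit false

namespace Pool.Agent.Y333.SL

theorem t_valcS : Pool.Agent.Y916.Sl.S_valcS :=
  valcS_of Pool.Agent.Y419.HY.t_rt Pool.Agent.Y419.HY.t_alg Pool.Agent.Y419.HY.t_eint
    (Pool.Agent.Y201.SA.t_kap Pool.Agent.Y419.HY.t_rt)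

end Pool.Agent.Y333.SL
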