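import Pool.Agent.Y333.SL.Cnt
import Pool.Agent.Y333.SL.GS
import Pool.Agent.Y916.Al.GK

/-!
# Job 3578 (SL/VALCS): values of the semi-abelian G-system at an algebraic point, from the parts
-/

set_option autoImplicit false

open PowerSeries

namespace Pool.Agent.Y333.SL

open Pool.Agent.Y113 Pool.Agent.Y916.Hy Pool.Agent.Y916.Sa Pool.Agent.Y120.GF Pool.Agent.Y960.SA Pool.Agent.Y916.Al

theorem valcS_of (hrt : S_rt) (halg : S_alg) (heint : S_eint) (hkap : S_kap) :
    ∀ (s : ℕ) (P : Fin s → Polynomial ℤ) (m : Fin s → ℕ),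
  (∀ a, GoodO (P a) ∧ m a < (P a).natDegree) → LI P m → ∀ N Δ d A : ℕ, ∃ E : ℕ, ∀ (H : ℕ) (K : IntermediateField ℚ ℂ)
  (x : K) (X : ℝ), FiniteDimensional ℚ K → Module.finrank ℚ K ≤ d → x ≠ 0 → Pt K x X →
  ‖(x : ℂ)‖ * ((H : ℝ) + 2) ^ E ≤ 1 → X * ‖(x : ℂ)‖ ^ A ≤ 1 →
  ∀ g : Fin N → ℕ, Function.Injective g → (∀ l, 1 ≤ g l ∧ g l ≤ H) →
  ∀ Q : MvPolynomial (Fin N × Tau m) ℚ, Q.totalDegree ≤ Δ →
    MvPolynomial.aeval (fun i => evc (x : ℂ) (Yg P m (g i.1) i.2)) Q = 0 → Q = 0 := by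
  classical
  intro s P m hP hLI N Δ d A
  obtain ⟨D, hD⟩ := exists_D m N Δ (2 * A * d)
  obtain ⟨q, E₁, hE₁⟩ := gs_of hrt halg heint hkap s P m hP N (D + Δ)
  choose E₂f hE₂f using fun n => t_GK d A n q
  set Nk := Fintype.card (Finset (Fin s × Fin N) × (Fin N → Dx m (D + Δ))) with hNk
  set E₂ := ∑ n ∈ Finset.range (Nk + 1), E₂f n with hE₂
  refine ⟨(E₁ + 1) * E₂ + E₁, fun H K x X hfd hrk hx0 hPt hxE hXA g hg hgH Q hQ hQv => ?_⟩
  have hHB : (1 : ℝ) ≤ (H : ℝ) + 2 := one_le_base H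
  have hxR : ∀ a, a ≤ (E₁ + 1) * E₂ + E₁ → ‖(x : ℂ)‖ * ((H : ℝ) + 2) ^ a ≤ 1 := fun a ha =>
    (mul_le_mul_of_nonneg_left (base_mono hHB ha) (norm_nonneg _)).trans hxE
  have hx0' : (x : ℂ) ≠ 0 := by exact_mod_cast hx0
  obtain ⟨J, hJ, hind⟩ := hLI N g hg fun l => (hgH l).1
  obtain ⟨T, hG, hT⟩ := hE₁ H g (fun l => (hgH l).2) J hJ
  obtain ⟨hTx, hcr, hcv⟩ := hT (x : ℂ) hx0' (hxR _ (by omega))
  -- the functions are linearly independent
  have hlin : LinearIndependent (Polynomial ℚ) (wf P m (D + Δ) g J) := by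
    have h1 := hind.comp (fun p : KI m (D + Δ) J => (p.1, DD m (D + Δ) p.2)) (by
      intro p p' h
      have e1 := congrArg Prod.fst h
      have e2 := congrArg Prod.snd h
      exact Prod.ext e1 (DD_inj m (D + Δ) e2))
    have h2 : wf P m (D + Δ) g J = (fun p : {T : Finset (Fin s × Fin N) // T ⊆ J} × (Fin N × Tau m →₀ ℕ) =>
          (∏ i ∈ p.1.1, Rt (phi (P i.1) (g i.2))) * p.2.prod fun x e => Yg P m (g x.1) x.2 ^ e) ∘
          (fun p : KI m (D + Δ) J => (p.1, DD m (D + Δ) p.2)) := by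
      funext p
      exact wf_eq P m (D + Δ) g J p
    rw [h2]
    exact h1
  -- the polynomial over `K`
  by_contra hQne
  set QK : MvPolynomial (Fin N × Tau m) K := MvPolynomial.map (algebraMap ℚ K) Q with hQK
  have hQK0 : QK ≠ 0 := by
    intro h1
    apply hQne
    apply MvPolynomial.map_injective (algebraMap ℚ K) (algebraMap ℚ K).injective
    rw [← hQK, h1, map_zero]
  have hQKd : QK.totalDegree ≤ Δ := by
    refine le_trans ?_ hQ
    unfold MvPolynomial.totalDegree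
    exact Finset.sup_mono (MvPolynomial.support_map_subset _ _)
  have hQKv : MvPolynomial.aeval (fun i => evc (x : ℂ) (Yg P m (g i.1) i.2)) QK = 0 := by
    rw [hQK, MvPolynomial.aeval_map_algebraMap]
    exact hQv
  -- the values of the monomials
  have hmo : ∀ p : KI m (D + Δ) J, evc (x : ℂ) (wf P m (D + Δ) g J p) =
      (∏ i ∈ p.1.1, evc (x : ℂ) (rt P g i)) *
        ∏ i, (evc (x : ℂ) (Yg P m (g i.1) i.2)) ^ (DD m (D + Δ) p.2 i) := by
    intro p
    have h3 : wf P m (D + Δ) g J p = (∏ i ∈ p.1.1, rt P g i) *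
        ∏ i, Yg P m (g i.1) i.2 ^ (DD m (D + Δ) p.2 i) := by
      rw [wf_eq P m (D + Δ) g J p, Finsupp.prod_fintype _ _ (fun _ => pow_zero _)]
      rfl
    rw [h3, (Cvc.prod _ _ fun i _ => hcr i).ev_mul (Cvc.prod _ _ fun i _ => (hcv i).pow _),
      Cvc.ev_prod _ _ (fun i _ => hcr i), Cvc.ev_prod _ _ (fun i _ => (hcv i).pow _)]
    congr 1
    exact Finset.prod_congr rfl fun i _ => (hcv i).ev_pow _
  -- enumeration
  have hcard : Fintype.card (KI m (D + Δ) J) ≤ Nk := by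
    rw [hNk, Fintype.card_prod, Fintype.card_prod]
    refine Nat.mul_le_mul_right _ ?_
    exact Fintype.card_subtype_le _
  let eqv : Fin (Fintype.card (KI m (D + Δ) J)) ≃ KI m (D + Δ) J := (Fintype.equivFin _).symm
  let eqv' : Fin (Fintype.card (KI m D J)) ≃ KI m D J := (Fintype.equivFin _).symm
  obtain ⟨b₀, hb₀⟩ := exists_d' m (D + Δ) (N := N) 0 (by simp)
  let e₀ : KI m (D + Δ) J := (⟨∅, Finset.empty_subset J⟩, b₀)
  have hE₂le : E₂f (Fintype.card (KI m (D + Δ) J)) ≤ E₂ :=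
    Finset.single_le_sum (f := E₂f) (fun _ _ => Nat.zero_le _) (Finset.mem_range.2 (by omega))
  refine hE₂f _ _ T (fun j => wf P m (D + Δ) g J (eqv j)) (eqv.symm e₀) K x X hfd hrk hx0 hPt
    (hG.reindex eqv) ?_ ?_ ?_ hXA hTx (Fintype.card (KI m D J))
    (fun r j => if (eqv j).1 = (eqv' r).1 then vec m QK (D + Δ) (eqv' r).2 (eqv j).2 else 0) ?_ ?_ ?_
  · rw [Equiv.apply_symm_apply, wf_eq P m (D + Δ) g J e₀]
    dsimp only [e₀]
    rw [hb₀]
    simp
  · exact hlin.comp _ eqv.injective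
  · refine (mul_le_mul_of_nonneg_left ?_ (norm_nonneg _)).trans (hxR ((E₁ + 1) * E₂) (by omega))
    exact (pow_base H _ _).trans (base_mono hHB (Nat.mul_le_mul_left _ hE₂le))
  · rw [Fintype.linearIndependent_iff]
    intro c hc r
    set T' := (eqv' r).1 with hT'
    have h1 := vec_indep m (D := D) QK hQK0 hQKd (fun e' => c (eqv'.symm (T', e'))) (by
      intro e
      have h2 := congrFun hc (eqv.symm (T', e))
      rw [Finset.sum_apply] at h2
      simp only [Pi.smul_apply, smul_eq_mul, Equiv.apply_symm_apply, Pi.zero_apply] at h2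
      rw [← Equiv.sum_comp eqv'.symm, Fintype.sum_prod_type, Finset.sum_eq_single T'] at h2
      · simp only [Equiv.apply_symm_apply, if_true] at h2
        exact h2
      · intro T'' _ hne
        refine Finset.sum_eq_zero fun e' _ => ?_
        rw [Equiv.apply_symm_apply, if_neg (fun h => hne h.symm), mul_zero]
      · intro h
        exact absurd (Finset.mem_univ _) h) (eqv' r).2
    have h3 : (T', (eqv' r).2) = eqv' r := rfl
    rw [h3, Equiv.symm_apply_apply] at h1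
    exact h1
  · intro r
    set p' := eqv' r with hp'
    have h1 : MvPolynomial.aeval (fun i => evc (x : ℂ) (Yg P m (g i.1) i.2))
        (QK * MvPolynomial.monomial (DD m D p'.2) (1 : K)) = 0 := by
      rw [map_mul, hQKv, zero_mul]
    have h2 : ∀ δ ∈ (QK * MvPolynomial.monomial (DD m D p'.2) (1 : K)).support, ∀ l, ∑ x, δ (l, x) ≤ D + Δ := by
      refine supp_mul m QK _ hQKd fun δ hδ => ?_
      have h3 := MvPolynomial.support_monomial_subset hδ
      rw [Finset.mem_singleton] at h3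
      rw [h3]
      exact DD_sum m p'.2
    rw [aeval_sum m _ h2] at h1
    rw [Equiv.sum_comp eqv (fun p => ((if p.1 = p'.1 then vec m QK (D + Δ) p'.2 p.2 else 0 : K) : ℂ) *
      evc (x : ℂ) (wf P m (D + Δ) g J p)), Fintype.sum_prod_type, Finset.sum_eq_single p'.1]
    · have h4 : ∀ e : Fin N → Dx m (D + Δ), ((if p'.1 = p'.1 then vec m QK (D + Δ) p'.2 e else 0 : K) : ℂ) *
          evc (x : ℂ) (wf P m (D + Δ) g J (p'.1, e)) = (∏ i ∈ p'.1.1, evc (x : ℂ) (rt P g i)) *
            (algebraMap K ℂ (MvPolynomial.coeff (DD m (D + Δ) e)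
              (QK * MvPolynomial.monomial (DD m D p'.2) (1 : K))) *
              ∏ i, (evc (x : ℂ) (Yg P m (g i.1) i.2)) ^ (DD m (D + Δ) e i)) := by
        intro e
        rw [if_pos rfl, hmo]
        unfold vec
        show ((MvPolynomial.coeff (DD m (D + Δ) e)
              (QK * MvPolynomial.monomial (DD m D p'.2) (1 : K)) : K) : ℂ) * _ = _ * (((MvPolynomial.coeff
                (DD m (D + Δ) e) (QK * MvPolynomial.monomial (DD m D p'.2) (1 : K)) : K) : ℂ) * _)
        ring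
      rw [Finset.sum_congr rfl fun e _ => h4 e, ← Finset.mul_sum, h1, mul_zero]
    · intro T'' _ hne
      refine Finset.sum_eq_zero fun e _ => ?_
      rw [if_neg hne]
      simp
    · intro h
      exact absurd (Finset.mem_univ _) h
  · rw [Fintype.card_prod, Fintype.card_prod, ← Nat.mul_sub]
    calc 2 * A * d * (Fintype.card {T : Finset (Fin s × Fin N) // T ⊆ J} *
          (Fintype.card (Fin N → Dx m (D + Δ)) - Fintype.card (Fin N → Dx m D)))
        = Fintype.card {T : Finset (Fin s × Fin N) // T ⊆ J} * (2 * A * d *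
          (Fintype.card (Fin N → Dx m (D + Δ)) - Fintype.card (Fin N → Dx m D))) := by ring
      _ ≤ _ := Nat.mul_le_mul_left _ hD

end Pool.Agent.Y333.SL
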